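import Pool.Agent.Q271.LF.Upper

set_option autoImplicit false

/-! # MP_18f540_nt: linear forms with positive coefficients -/

namespace Pool.Agent.Results.MP_18f540_nt.PositiveCoefficients

open Q271.LF

/-- The set `E(w)` of all points `x = (ξ, η)` of the Euclidean plane for which there is a constant
`c > 0` such that `|p ξ + q η + r| < c (max {p, q}) ^ (-w)` for infinitely many integer triples
`(p, q, r)` with `p > 0` and `q > 0`. -/
def E (w : ℝ) : Set (EuclideanSpace ℝ (Fin 2)) :=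
  {x | ∃ c : ℝ, 0 < c ∧ {t : ℤ × ℤ × ℤ | 0 < t.1 ∧ 0 < t.2.1 ∧
    |t.1 * x 0 + t.2.1 * x 1 + t.2.2| < c * (max (t.1:ℝ) (t.2.1:ℝ)) ^ (-w)}.Infinite}

/-- **Full answer to Q1**: `dim_H E(w) = 1 + 3 / (w + 1)` for every real `w > 2`. -/
theorem result (w : ℝ) (hw : 2 < w) : dimH (E w) = ENNReal.ofReal (1 + 3 / (w + 1)) := by
  let L : EuclideanSpace ℝ (Fin 2) ≃L[ℝ] ℝ × ℝ :=
    (EuclideanSpace.equiv (Fin 2) ℝ).trans (ContinuousLinearEquiv.finTwoArrow ℝ ℝ)
  have h : E w = L ⁻¹' (EP w) := rfl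
  rw [h, L.dimH_preimage]
  exact le_antisymm (dimH_EP_le w (by linarith)) (le_dimH_EP w hw)

end Pool.Agent.Results.MP_18f540_nt.PositiveCoefficients
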